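import Pool.Agent.K3h8.SF.Stm

/-!
# Contraction of blocks to their first letters
-/

set_option autoImplicit false
set_option linter.unusedSectionVars false
set_option linter.unusedSimpArgs false

open CategoryTheory Limits MonoidalCategory
open Pool.Agent.Y112.SR Pool.Agent.Y112.KD Pool.Agent.R905 Pool.Agent.K3h8.KS
open Pool.Agent.Y116.MT (tr)
open Pool.Agent.K3h8.SF

namespace Pool.Agent.K3h33.SF

universe v u w

section

variable {C : Type u} [Category.{v} C] [MonoidalCategory C] [SymmetricCategory C]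

/-- The tensor powers of the unit object. -/
def tpUnit : ∀ k : ℕ, tp (𝟙_ C) k ≅ 𝟙_ C
  | 0 => Iso.refl _
  | k + 1 => whiskerRightIso (tpUnit k) (𝟙_ C) ≪≫ λ_ (𝟙_ C)

end

section

variable {C : Type u} [Category.{v} C] [MonoidalCategory C] [SymmetricCategory C]
  [Preadditive C] [Linear ℚ C] [MonoidalPreadditive C] [MonoidalLinear ℚ C]

lemma whisker_unit_zero {A T : C} (e : T ≅ 𝟙_ C) (f : A ⟶ A) (h : f ▷ T = 0) : f = 0 := by
  have h1 : f ▷ 𝟙_ C = (A ◁ e.inv) ≫ (f ▷ T) ≫ (A ◁ e.hom) := by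
    rw [← whisker_exchange, ← MonoidalCategory.whiskerLeft_comp_assoc, Iso.inv_hom_id]
    simp
  have h2 : f = (ρ_ A).inv ≫ (f ▷ 𝟙_ C) ≫ (ρ_ A).hom := by simp
  rw [h2, h1, h]
  simp

variable [RightRigidCategory C]

lemma bc_base (X : C) (k : ℕ) (a' : tp X k ⟶ tp X k) (y : tp X 1 ⟶ tp X 1)
    (h : Blk (𝟙 (tp X k)) a' ((kap X 0).hom ≫ y ≫ (kap X 0).inv)) :
    tpm ((λ_ X).inv ≫ y ≫ (λ_ X).hom) k ≫ a' = 0 := by
  have h1 : (kap X 0).hom ≫ y ≫ (kap X 0).inv =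
      ((λ_ X).inv ≫ y ≫ (λ_ X).hom) ▷ 𝟙_ C := by
    have e1 : ((λ_ X).inv ≫ y ≫ (λ_ X).hom) ▷ 𝟙_ C =
        (ρ_ X).hom ≫ ((λ_ X).inv ≫ y ≫ (λ_ X).hom) ≫ (ρ_ X).inv := by
      rw [← rightUnitor_naturality_assoc]
      simp
    rw [e1]
    simp only [kap, Iso.trans_hom, Iso.trans_inv, Iso.symm_hom, Iso.symm_inv, Category.assoc]
  rw [h1] at h
  unfold Blk at h
  have h2 : unzip X (𝟙_ C) k ≫ tpm (((λ_ X).inv ≫ y ≫ (λ_ X).hom) ▷ 𝟙_ C) k ≫ zip X (𝟙_ C) k =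
      tpm ((λ_ X).inv ≫ y ≫ (λ_ X).hom) k ▷ tp (𝟙_ C) k := by
    rw [zip_nat_left, ← Category.assoc, unzip_zip, Category.id_comp]
  have h3 : (tpm ((λ_ X).inv ≫ y ≫ (λ_ X).hom) k ≫ a') ▷ tp (𝟙_ C) k = 0 := by
    rw [comp_whiskerRight, ← h2]
    simp only [Category.assoc]
    rw [id_whiskerRight, Category.id_comp] at h
    exact h
  exact whisker_unit_zero (tpUnit k) _ h3

/-- Brick BC. -/
theorem t_BC : Pool.Agent.K3h8.SF.BC C := by
  intro X k m a'
  induction m with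
  | zero =>
    intro y h
    exact bc_base X k a' y h
  | succ m ih =>
    intro y h
    have h1 := h.contract
    have h2 : PP ((kap X (m + 1)).hom ≫ y ≫ (kap X (m + 1)).inv) =
        (kap X m).hom ≫ ptr y ≫ (kap X m).inv := by
      rw [PP, ← ptr_comp']
      congr 1
      simp [kap]
    rw [h2] at h1
    exact ih (ptr y) h1

end

end Pool.Agent.K3h33.SF
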